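import Pool.Agent.N463.MI.Stm

/-!
Project MI (helper463), part A02a (helper572): the power series of `FF`.
-/

set_option autoImplicit false

open Finset Polynomial Filter

noncomputable section

namespace Pool.Agent.N572.MI.A02a

open Pool.Agent.N463.MI

/-- the coefficients of `g` majorize the absolute values of those of `f` -/
def Maj (f : ℤ[X]) (g : ℝ[X]) : Prop := ∀ n, |((f.coeff n : ℤ) : ℝ)| ≤ g.coeff n

theorem Maj.nn {f : ℤ[X]} {g : ℝ[X]} (h : Maj f g) (n : ℕ) : 0 ≤ g.coeff n :=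
  (abs_nonneg _).trans (h n)

theorem Maj.mul {f₁ f₂ : ℤ[X]} {g₁ g₂ : ℝ[X]} (h₁ : Maj f₁ g₁) (h₂ : Maj f₂ g₂) :
    Maj (f₁ * f₂) (g₁ * g₂) := by
  intro n
  rw [coeff_mul, coeff_mul]
  push_cast
  refine (abs_sum_le_sum_abs _ _).trans (sum_le_sum fun p _ => ?_)
  rw [abs_mul]
  exact mul_le_mul (h₁ _) (h₂ _) (abs_nonneg _) (h₁.nn _)

theorem Maj.one : Maj 1 1 := by
  intro n
  rw [coeff_one, coeff_one]
  split_ifs <;> simp

theorem Maj.prod {f : ℕ → ℤ[X]} {g : ℕ → ℝ[X]} (h : ∀ k, Maj (f k) (g k)) (L : ℕ) :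
    Maj (∏ k ∈ range L, f k) (∏ k ∈ range L, g k) := by
  induction L with
  | zero => simpa using Maj.one
  | succ L ih => rw [prod_range_succ, prod_range_succ]; exact ih.mul (h L)

theorem maj1 (c : ℤ) (m : ℕ) : Maj (1 + C c * X ^ m) (1 + C |(c : ℝ)| * X ^ m) := by
  intro n
  rw [coeff_add, coeff_add, coeff_C_mul, coeff_C_mul, coeff_X_pow, coeff_X_pow, coeff_one,
    coeff_one]
  split_ifs
  · push_cast
    rw [mul_one, mul_one]
    exact (abs_add_le _ _).trans (by simp)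
  · simp
  · simp
  · simp

theorem maj2 (m : ℕ) : Maj (1 - X ^ m) (1 + X ^ m) := by
  have h := maj1 (-1) m
  have e1 : (1 + C (-1) * X ^ m : ℤ[X]) = 1 - X ^ m := by
    rw [C_neg, C_1]
    ring
  have e2 : (1 + C |((-1 : ℤ) : ℝ)| * X ^ m : ℝ[X]) = 1 + X ^ m := by
    push_cast
    rw [abs_neg, abs_one, C_1, one_mul]
  rwa [e1, e2] at h

/-- the majorant -/
def gp (a : ℝ) (L : ℕ) : ℝ[X] :=
  (∏ k ∈ range L, (1 + C |a| * X ^ (k + 1))) * ∏ k ∈ range L, (1 + X ^ (2 * k + 1))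

theorem maj_gp (a : ℤ) (L : ℕ) : Maj (fpoly a L) (gp (a : ℝ) L) := by
  unfold fpoly gp
  exact (Maj.prod (fun k => maj1 a (k + 1)) L).mul (Maj.prod (fun k => maj2 (2 * k + 1)) L)

theorem eval_gp_le (a : ℝ) {y : ℝ} (hy0 : 0 ≤ y) (hy1 : y < 1) (L : ℕ) :
    (gp a L).eval y ≤ Real.exp (|a| * (1 - y)⁻¹) * Real.exp ((1 - y)⁻¹) := by
  have hg := hasSum_geometric_of_lt_one hy0 hy1
  have hge : ∑ k ∈ range L, y ^ k ≤ (1 - y)⁻¹ :=
    sum_le_hasSum _ (fun k _ => pow_nonneg hy0 k) hg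
  have e : (gp a L).eval y = (∏ k ∈ range L, (1 + |a| * y ^ (k + 1))) *
      ∏ k ∈ range L, (1 + y ^ (2 * k + 1)) := by
    unfold gp
    rw [eval_mul, eval_prod, eval_prod]
    simp
  rw [e]
  have h1 : ∏ k ∈ range L, (1 + |a| * y ^ (k + 1)) ≤ Real.exp (|a| * (1 - y)⁻¹) := by
    calc ∏ k ∈ range L, (1 + |a| * y ^ (k + 1)) ≤ ∏ k ∈ range L, Real.exp (|a| * y ^ k) := by
          refine prod_le_prod (fun k _ => by positivity) fun k _ => ?_
          have e1 : |a| * y ^ (k + 1) ≤ |a| * y ^ k :=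
            mul_le_mul_of_nonneg_left (pow_le_pow_of_le_one hy0 hy1.le (by omega)) (abs_nonneg _)
          have e2 := Real.add_one_le_exp (|a| * y ^ k)
          linarith
      _ = Real.exp (|a| * ∑ k ∈ range L, y ^ k) := by rw [← Real.exp_sum, mul_sum]
      _ ≤ _ := Real.exp_le_exp.2 (mul_le_mul_of_nonneg_left hge (abs_nonneg _))
  have h2 : ∏ k ∈ range L, (1 + y ^ (2 * k + 1)) ≤ Real.exp ((1 - y)⁻¹) := by
    calc ∏ k ∈ range L, (1 + y ^ (2 * k + 1)) ≤ ∏ k ∈ range L, Real.exp (y ^ k) := by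
          refine prod_le_prod (fun k _ => by positivity) fun k _ => ?_
          have e1 : y ^ (2 * k + 1) ≤ y ^ k := pow_le_pow_of_le_one hy0 hy1.le (by omega)
          have e2 := Real.add_one_le_exp (y ^ k)
          linarith
      _ = Real.exp (∑ k ∈ range L, y ^ k) := by rw [← Real.exp_sum]
      _ ≤ _ := Real.exp_le_exp.2 hge
  exact mul_le_mul h1 h2 (prod_nonneg fun k _ => by positivity) (Real.exp_pos _).le

theorem coeff_le_eval {g : ℝ[X]} (hg : ∀ n, 0 ≤ g.coeff n) {y : ℝ} (hy : 0 ≤ y) (n : ℕ) :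
    g.coeff n * y ^ n ≤ g.eval y := by
  rw [eval_eq_sum_range' (n := max (g.natDegree + 1) (n + 1))
    (lt_of_lt_of_le (Nat.lt_succ_self _) (le_max_left _ _))]
  refine single_le_sum (f := fun i => g.coeff i * y ^ i)
    (fun i _ => mul_nonneg (hg i) (pow_nonneg hy i)) ?_
  rw [mem_range]
  exact lt_of_lt_of_le (Nat.lt_succ_self _) (le_max_right _ _)

/-- stability of the coefficients -/
theorem coeff_mul_one_add (f : ℤ[X]) (c : ℤ) {n m : ℕ} (h : n < m) :
    (f * (1 + C c * X ^ m)).coeff n = f.coeff n := by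
  have e : f * (1 + C c * X ^ m) = f + (f * C c) * X ^ m := by ring
  rw [e, coeff_add, coeff_mul_X_pow', if_neg (by omega), add_zero]

theorem stab1 (a : ℤ) {n L : ℕ} (h : n ≤ L) :
    (fpoly a (L + 1)).coeff n = (fpoly a L).coeff n := by
  have e : fpoly a (L + 1) = (fpoly a L * (1 + C a * X ^ (L + 1))) *
      (1 + C (-1) * X ^ (2 * L + 1)) := by
    unfold fpoly
    rw [prod_range_succ, prod_range_succ, C_neg, C_1]
    ring
  rw [e, coeff_mul_one_add _ _ (by omega), coeff_mul_one_add _ _ (by omega)]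

theorem stab (a : ℤ) {n L : ℕ} (h : n ≤ L) : (fpoly a L).coeff n = cc a n := by
  induction L, h using Nat.le_induction with
  | base => rfl
  | succ L hL ih => rw [stab1 a hL, ih]

theorem val (a : ℤ) (q : ℂ) (L : ℕ) : ∑' n : ℕ, (((fpoly a L).coeff n : ℤ) : ℂ) * q ^ n =
    (∏ k ∈ range L, (1 + (a : ℂ) * q ^ (k + 1))) * ∏ k ∈ range L, (1 - q ^ (2 * k + 1)) := by
  rw [tsum_eq_sum (s := range ((fpoly a L).natDegree + 1))]
  · have h := eval₂_eq_sum_range (p := fpoly a L) (Int.castRingHom ℂ) q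
    have h' : ∑ n ∈ range ((fpoly a L).natDegree + 1), (((fpoly a L).coeff n : ℤ) : ℂ) * q ^ n =
        (fpoly a L).eval₂ (Int.castRingHom ℂ) q := h.symm
    rw [h']
    unfold fpoly
    rw [eval₂_mul, eval₂_finset_prod, eval₂_finset_prod]
    congr 1
    · refine prod_congr rfl fun k _ => ?_
      rw [eval₂_add, eval₂_mul, eval₂_C, eval₂_pow, eval₂_X, eval₂_one]
      rfl
    · refine prod_congr rfl fun k _ => ?_
      rw [eval₂_sub, eval₂_pow, eval₂_X, eval₂_one]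
  · intro n hn
    rw [mem_range, not_lt] at hn
    rw [coeff_eq_zero_of_natDegree_lt (by omega)]
    simp

theorem t_A02a (h : A01) : A02a := by
  intro a q hq
  obtain ⟨hP, hM, hE⟩ := h q hq
  obtain ⟨x, hx⟩ : ∃ x : ℝ, x = ‖q‖ := ⟨_, rfl⟩
  rw [← hx] at hq
  have hx0 : 0 ≤ x := by rw [hx]; exact norm_nonneg q
  obtain ⟨y, hy⟩ : ∃ y : ℝ, y = (x + 1) / 2 := ⟨_, rfl⟩
  have hxy : x < y := by linarith
  have hy1 : y < 1 := by linarith
  have hy0 : 0 < y := by linarith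
  obtain ⟨B, hB⟩ : ∃ B : ℝ, B = Real.exp (|(a : ℝ)| * (1 - y)⁻¹) * Real.exp ((1 - y)⁻¹) :=
    ⟨_, rfl⟩
  have hcoef : ∀ L n : ℕ, |(((fpoly a L).coeff n : ℤ) : ℝ)| * x ^ n ≤ B * (x / y) ^ n := by
    intro L n
    have h1 := maj_gp a L
    have h2 := coeff_le_eval h1.nn hy0.le n
    have h3 := eval_gp_le (a : ℝ) hy0.le hy1 L
    rw [← hB] at h3
    have h4 : |(((fpoly a L).coeff n : ℤ) : ℝ)| * y ^ n ≤ B :=
      (mul_le_mul_of_nonneg_right (h1 n) (by positivity)).trans (h2.trans h3)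
    have h5 : x ^ n = y ^ n * (x / y) ^ n := by
      rw [← mul_pow]
      congr 1
      field_simp
    rw [h5, ← mul_assoc]
    exact mul_le_mul_of_nonneg_right h4 (by positivity)
  have hsumB : Summable fun n : ℕ => B * (x / y) ^ n :=
    (summable_geometric_of_lt_one (by positivity) ((div_lt_one hy0).2 hxy)).mul_left B
  have hnorm : ∀ L n : ℕ, ‖(((fpoly a L).coeff n : ℤ) : ℂ) * q ^ n‖ ≤ B * (x / y) ^ n := by
    intro L n
    rw [norm_mul, norm_pow, Complex.norm_intCast, ← hx]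
    exact hcoef L n
  have hS : Summable (fun n : ℕ => ‖((cc a n : ℤ) : ℂ) * q ^ n‖) :=
    Summable.of_nonneg_of_le (fun n => norm_nonneg _) (fun n => hnorm n n) hsumB
  refine ⟨hS, ?_⟩
  have hlim1 : Tendsto (fun L => ∑' n, (((fpoly a L).coeff n : ℤ) : ℂ) * q ^ n) atTop
      (nhds (∑' n, ((cc a n : ℤ) : ℂ) * q ^ n)) := by
    refine tendsto_tsum_of_dominated_convergence hsumB ?_ ?_
    · intro n
      refine tendsto_const_nhds.congr' ?_
      filter_upwards [eventually_ge_atTop n] with L hL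
      rw [stab a hL]
    · exact Eventually.of_forall fun L n => hnorm L n
  have hlim2 : Tendsto (fun L => (∏ k ∈ range L, (1 + (a : ℂ) * q ^ (k + 1))) *
      ∏ k ∈ range L, (1 - q ^ (2 * k + 1))) atTop
      (nhds (PP (a : ℂ) q * ∏' k : ℕ, (1 - q ^ (2 * k + 1)))) := by
    refine Tendsto.mul ?_ hM.hasProd.tendsto_prod_nat
    have hmu : Multipliable (fun k : ℕ => 1 + (a : ℂ) * q ^ (k + 1)) := by
      apply multipliable_one_add_of_summable
      have e1 : (fun k : ℕ => ‖(a : ℂ) * q ^ (k + 1)‖) = fun k => (‖(a : ℂ)‖ * x) * x ^ k := by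
        funext k
        rw [norm_mul, norm_pow, ← hx, pow_succ]
        ring
      rw [e1]
      exact (summable_geometric_of_lt_one hx0 hq).mul_left _
    exact hmu.hasProd.tendsto_prod_nat
  simp only [val] at hlim1
  have e1 := tendsto_nhds_unique hlim1 hlim2
  rw [e1]
  unfold FF
  rw [Complex.ofReal_intCast, eq_div_iff hP, mul_assoc, mul_comm _ (PP 1 q), hE, mul_one]

end Pool.Agent.N572.MI.A02a
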