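import Pool.Agent.N463.MI.Stm

/-!
Project MI (helper463), part F02 (helper572): lower bound for the number of partitions into distinct
parts.
-/

set_option autoImplicit false

open Finset Polynomial

noncomputable section

namespace Pool.Agent.N572.MI.F02

open Pool.Agent.N463.MI

/-- triangular numbers -/
def tri : ℕ → ℕ
  | 0 => 0
  | (j + 1) => tri j + (j + 1)

theorem tri_eq (j : ℕ) : 2 * tri j = j * (j + 1) := by
  induction j with
  | zero => rfl
  | succ j ih => rw [tri, mul_add, ih]; ring

/-- the number of partitions of `N` into parts of size at most `j` -/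
def R : ℕ → ℕ → ℕ
  | 0, N => if N = 0 then 1 else 0
  | (j + 1), N => R j N + if h : j + 1 ≤ N then R (j + 1) (N - (j + 1)) else 0
termination_by j N => (j, N)

theorem R_zero (N : ℕ) : R 0 N = if N = 0 then 1 else 0 := by rw [R]

theorem R_succ (j N : ℕ) :
    R (j + 1) N = R j N + if j + 1 ≤ N then R (j + 1) (N - (j + 1)) else 0 := by
  rw [R]
  split_ifs <;> rfl

theorem bern {m N : ℝ} (hm : 0 ≤ m) (hN : m ≤ N) (k : ℕ) :
    N ^ (k + 1) ≤ (k + 1) * m * N ^ k + (N - m) ^ (k + 1) := by
  induction k with
  | zero => simp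
  | succ k ih =>
    have hN0 : 0 ≤ N := hm.trans hN
    have h1 : (N - m) ^ (k + 1) ≤ N ^ (k + 1) := pow_le_pow_left₀ (by linarith) (by linarith) _
    have h2 := mul_le_mul_of_nonneg_left ih hN0
    have h3 := mul_le_mul_of_nonneg_left h1 hm
    calc N ^ (k + 1 + 1) = N * N ^ (k + 1) := by ring
      _ ≤ N * ((k + 1) * m * N ^ k + (N - m) ^ (k + 1)) := h2
      _ = (k + 1) * m * N ^ (k + 1) + (N - m) ^ (k + 1 + 1) + m * (N - m) ^ (k + 1) := by ring
      _ ≤ (k + 1) * m * N ^ (k + 1) + (N - m) ^ (k + 1 + 1) + m * N ^ (k + 1) := by linarith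
      _ = _ := by push_cast; ring

theorem R_one (N : ℕ) : 1 ≤ R 1 N := by
  induction N using Nat.strong_induction_on with
  | _ N ih =>
    rw [R_succ]
    split_ifs with h
    · have := ih (N - (0 + 1)) (by omega)
      have h' : R (0 + 1) (N - (0 + 1)) = R 1 (N - (0 + 1)) := rfl
      omega
    · rw [R_zero, if_pos (by omega)]

theorem R_lower (j : ℕ) : ∀ N : ℕ,
    (N : ℝ) ^ j / ((j + 1).factorial * j.factorial) ≤ (R (j + 1) N : ℝ) := by
  induction j with
  | zero =>
    intro N
    have h : (1 : ℝ) ≤ (R 1 N : ℝ) := by exact_mod_cast R_one N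
    simpa using h
  | succ j ih =>
    intro N
    induction N using Nat.strong_induction_on with
    | _ N ihN =>
      have h1 := ih N
      obtain ⟨D, hD⟩ : ∃ D : ℝ, D = ((j + 1).factorial : ℝ) * (j.factorial : ℝ) := ⟨_, rfl⟩
      have hD0 : 0 < D := by rw [hD]; positivity
      have hD2 : ((j + 1 + 1).factorial : ℝ) * ((j + 1).factorial : ℝ) =
          ((j : ℝ) + 2) * ((j : ℝ) + 1) * D := by
        rw [hD, Nat.factorial_succ (j + 1), Nat.factorial_succ j]
        push_cast
        ring
      rw [← hD] at h1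
      have hj : (0 : ℝ) < ((j : ℝ) + 2) * ((j : ℝ) + 1) := by positivity
      have hj2 : (0 : ℝ) < ((j : ℝ) + 2) * ((j : ℝ) + 1) * D := by positivity
      rw [div_le_iff₀ hD0] at h1
      have h4 := mul_le_mul_of_nonneg_left h1 hj.le
      rw [hD2, R_succ, div_le_iff₀ hj2]
      split_ifs with h
      · have h2 := ihN (N - (j + 1 + 1)) (by omega)
        rw [hD2, div_le_iff₀ hj2, Nat.cast_sub h] at h2
        have hm : ((j + 1 + 1 : ℕ) : ℝ) = (j : ℝ) + 2 := by push_cast; ring
        rw [hm] at h2
        have h' : (j : ℝ) + 2 ≤ N := by rw [← hm]; exact_mod_cast h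
        have h3 := bern (m := (j : ℝ) + 2) (N := N) (by positivity) h' j
        push_cast
        calc (N : ℝ) ^ (j + 1) ≤ (j + 1) * (j + 2) * N ^ j + (N - (j + 2)) ^ (j + 1) := h3
          _ = (j + 2) * (j + 1) * N ^ j + (N - (j + 2)) ^ (j + 1) := by ring
          _ ≤ (j + 2) * (j + 1) * (R (j + 1) N * D) +
              R (j + 1 + 1) (N - (j + 1 + 1)) * ((j + 2) * (j + 1) * D) := add_le_add h4 h2
          _ = _ := by ring
      · have h5 : (N : ℝ) ≤ ((j : ℝ) + 2) * ((j : ℝ) + 1) := by
          have h6 : N ≤ (j + 2) * (j + 1) := by nlinarith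
          exact_mod_cast h6
        have h7 : (0 : ℝ) ≤ (N : ℝ) ^ j := by positivity
        push_cast
        calc (N : ℝ) ^ (j + 1) = N * N ^ j := by ring
          _ ≤ ((j + 2) * (j + 1)) * N ^ j := mul_le_mul_of_nonneg_right h5 h7
          _ ≤ ((j + 2) * (j + 1)) * (R (j + 1) N * D) := h4
          _ = _ := by ring

/-- truncated products -/
def Qp (i m : ℕ) : ℤ[X] := ∏ k ∈ range m, (1 + X ^ (i + k + 1))

theorem Qp_succ (i m : ℕ) : Qp i (m + 1) = Qp (i + 1) m + Qp (i + 1) m * X ^ (i + 1) := by
  unfold Qp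
  rw [prod_range_succ']
  have : ∏ k ∈ range m, (1 + X ^ (i + (k + 1) + 1) : ℤ[X]) =
      ∏ k ∈ range m, (1 + X ^ (i + 1 + k + 1)) :=
    prod_congr rfl fun k _ => by rw [show i + (k + 1) + 1 = i + 1 + k + 1 by omega]
  rw [this]
  simp only [add_zero]
  ring

/-- the lower bound -/
def u (i j n : ℕ) : ℕ := if tri j + i * j ≤ n then R j (n - tri j - i * j) else 0

theorem claim (m : ℕ) : ∀ i j n : ℕ, n ≤ i + m → ((u i j n : ℕ) : ℤ) ≤ (Qp i m).coeff n := by
  induction m with
  | zero =>
    intro i j n hn
    unfold Qp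
    rw [range_zero, prod_empty, coeff_one]
    cases j with
    | zero =>
      unfold u
      simp only [tri, mul_zero, add_zero, Nat.zero_le, if_true, Nat.sub_zero]
      rw [R_zero]
      split_ifs <;> simp_all
    | succ j =>
      have h1 : ¬ (tri (j + 1) + i * (j + 1) ≤ n) := by
        rw [tri]
        have : i ≤ i * (j + 1) := Nat.le_mul_of_pos_right _ (by omega)
        omega
      unfold u
      rw [if_neg h1]
      split_ifs <;> simp
  | succ m ih =>
    intro i j n hn
    rw [Qp_succ, coeff_add, coeff_mul_X_pow']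
    have h1 := ih (i + 1) j n (by omega)
    cases j with
    | zero =>
      have e : u i 0 n = u (i + 1) 0 n := by
        unfold u
        simp [tri]
      rw [e]
      have h3 : 0 ≤ (if i + 1 ≤ n then (Qp (i + 1) m).coeff (n - (i + 1)) else 0) := by
        split_ifs with h
        · exact le_trans (Int.natCast_nonneg _) (ih (i + 1) 0 (n - (i + 1)) (by omega))
        · exact le_rfl
      linarith
    | succ j =>
      by_cases hc : tri (j + 1) + i * (j + 1) ≤ n
      · have hin : i + 1 ≤ n := by
          rw [tri] at hc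
          have : i ≤ i * (j + 1) := Nat.le_mul_of_pos_right _ (by omega)
          omega
        rw [if_pos hin]
        have h2 := ih (i + 1) j (n - (i + 1)) (by omega)
        have e : u i (j + 1) n = u (i + 1) j (n - (i + 1)) + u (i + 1) (j + 1) n := by
          unfold u
          rw [if_pos hc, R_succ]
          rw [tri] at hc ⊢
          have m1 : i * (j + 1) = i * j + i := by ring
          have m2 : (i + 1) * j = i * j + j := by ring
          have m3 : (i + 1) * (j + 1) = i * j + i + j + 1 := by ring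
          rw [m1] at hc
          rw [m1, m2, m3]
          rw [if_pos (show tri j + (i * j + j) ≤ n - (i + 1) by omega)]
          have a1 : n - (i + 1) - tri j - (i * j + j) = n - (tri j + (j + 1)) - (i * j + i) := by
            omega
          rw [a1]
          congr 1
          by_cases hd : j + 1 ≤ n - (tri j + (j + 1)) - (i * j + i)
          · rw [if_pos hd, if_pos (by omega)]
            congr 1
            omega
          · rw [if_neg hd, if_neg (by omega)]
        rw [e]
        push_cast
        linarith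
      · have e : u i (j + 1) n = 0 := by
          unfold u
          rw [if_neg hc]
        rw [e]
        have h3 : 0 ≤ (if i + 1 ≤ n then (Qp (i + 1) m).coeff (n - (i + 1)) else 0) := by
          split_ifs with h
          · exact le_trans (Int.natCast_nonneg _) (ih (i + 1) 0 (n - (i + 1)) (by omega))
          · exact le_rfl
        have h4 : 0 ≤ (Qp (i + 1) m).coeff n := le_trans (Int.natCast_nonneg _) h1
        push_cast
        linarith

theorem t_F02 : F02 := by
  intro j n hj hn
  obtain ⟨j, rfl⟩ : ∃ i, j = i + 1 := ⟨j - 1, by omega⟩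
  have ht := tri_eq (j + 1)
  have htn : tri (j + 1) ≤ n := by omega
  have h1 := claim n 0 (j + 1) n (by omega)
  have e1 : Qp 0 n = dpoly 1 n := by
    unfold Qp dpoly
    refine prod_congr rfl fun k _ => ?_
    rw [C_1, one_mul, zero_add]
  have e2 : u 0 (j + 1) n = R (j + 1) (n - tri (j + 1)) := by
    unfold u
    rw [zero_mul, add_zero, if_pos htn, Nat.sub_zero]
  rw [e1, e2] at h1
  have h2 := R_lower j (n - tri (j + 1))
  rw [Nat.cast_sub htn] at h2
  have htR : (tri (j + 1) : ℝ) = ((j + 1 : ℕ) : ℝ) * (((j + 1 : ℕ) : ℝ) + 1) / 2 := by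
    have : (2 : ℝ) * (tri (j + 1) : ℝ) = ((j + 1 : ℕ) : ℝ) * (((j + 1 : ℕ) : ℝ) + 1) := by
      exact_mod_cast ht
    linarith
  rw [htR] at h2
  rw [Nat.add_sub_cancel]
  refine h2.trans ?_
  unfold qq
  exact_mod_cast h1

end Pool.Agent.N572.MI.F02
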